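import Mathlib
import Pool.Agent.W758.AHC.Stm

/-!
# Project AHC: the bound for `B`
-/

set_option autoImplicit false

namespace Pool.Agent.W428.AHC.YB

open Finset Pool.Agent.W758.AHC

lemma ind_mem {ι : Type} [DecidableEq ι] {a : Finset ι} {x : ι} (h : x ∈ a) : ind a x = 1 := by
  simp [ind, h]

lemma ind_not_mem {ι : Type} [DecidableEq ι] {a : Finset ι} {x : ι} (h : x ∉ a) :
    ind a x = 0 := by
  simp [ind, h]

lemma ind_or {ι : Type} [DecidableEq ι] (a : Finset ι) (x : ι) : ind a x = 0 ∨ ind a x = 1 := by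
  by_cases h : x ∈ a
  · exact Or.inr (ind_mem h)
  · exact Or.inl (ind_not_mem h)

/-- two points are in a common member -/
lemma half_pair {ι : Type} [DecidableEq ι] {B : Finset (Finset ι)} (hB : Half B) (i j : ι) :
    ∃ b ∈ B, i ∈ b ∧ j ∈ b := by
  by_contra hcon
  push Not at hcon
  have hd : Disjoint (B.filter (fun a => i ∈ a)) (B.filter (fun a => j ∈ a)) := by
    rw [Finset.disjoint_left]
    intro b hb hb'
    rw [Finset.mem_filter] at hb hb'
    exact hcon b hb.1 hb.2 hb'.2
  have hu : (B.filter (fun a => i ∈ a) ∪ B.filter (fun a => j ∈ a)).card ≤ B.card :=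
    Finset.card_le_card (Finset.union_subset (Finset.filter_subset _ _) (Finset.filter_subset _ _))
  rw [Finset.card_union_of_disjoint hd] at hu
  have h1 := hB i
  have h2 := hB j
  omega

/-- the system for `B` -/
def sys {ι : Type} [Fintype ι] [DecidableEq ι] (l : ℕ) (I : Finset ι) (v : ι → ℚ)
    (c : ι → ι → ℚ) : Sys ι ι where
  S := Iᶜ
  K := I
  v := v
  lam := l
  c := fun j i => - c i j
  w := fun _ => 0

lemma sys_N {ι : Type} [Fintype ι] [DecidableEq ι] (l : ℕ) (I : Finset ι) (v : ι → ℚ)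
    (c : ι → ι → ℚ) (i : ι) : (sys l I v c).N i = Iᶜ.filter (fun j => c i j ≠ 0) := by
  unfold Sys.N sys
  ext j
  simp

lemma sys_T {ι : Type} [Fintype ι] [DecidableEq ι] (l : ℕ) (I : Finset ι) (v : ι → ℚ)
    (c : ι → ι → ℚ) : (sys l I v c).T = Iᶜ.filter (fun j => v j ≠ 0) := rfl

theorem yb : S_YB := by
  intro hSIDE hFIN ι _ _ l A B I v c hl hBne hLAD hHalf hR4
  obtain ⟨C, L, hL, hcard, hInv, hN⟩ := hSIDE ι ι (sys l I v c)
  have hTC : (sys l I v c).T ⊆ C := hInv.1
  have hCS : C ⊆ Iᶜ := hInv.2.1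
  have hv0 : ∀ j ∈ Iᶜ \ C, v j = 0 := by
    intro j hj
    rw [Finset.mem_sdiff] at hj
    by_contra hne
    exact hj.2 (hTC (by rw [sys_T, Finset.mem_filter]; exact ⟨hj.1, hne⟩))
  have hN' : ∀ i ∈ I, ((Iᶜ.filter (fun j => c i j ≠ 0)) \ C).card ≤ 1 := by
    intro i hi
    have := hN i hi
    rwa [sys_N] at this
  refine ⟨C, L, hL, hCS, hv0, by rw [hcard, sys_T], hN', ?_⟩
  have hthird : ∀ j ∈ (sys l I v c).S \ C, ∃ k ∈ (sys l I v c).K, j ∈ (sys l I v c).N k ∧
      ((sys l I v c).c j k = 1 →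
        ¬ (sys l I v c).Deg C (fun j' => (sys l I v c).c j' k) (-(sys l I v c).w k)) ∧
      ((sys l I v c).c j k = -1 →
        ¬ (sys l I v c).Deg C (fun j' => (sys l I v c).c j' k) (1 - (sys l I v c).w k)) := by
    intro j hj
    have hj' : j ∈ Iᶜ \ C := hj
    have hjI : j ∈ Iᶜ := (Finset.mem_sdiff.1 hj').1
    have hjC : j ∉ C := (Finset.mem_sdiff.1 hj').2
    have hvj : v j = 0 := hv0 j hj'
    obtain ⟨i, hi, hcij, h2⟩ := hR4 j hjI hvj
    have huniq : ∀ j' ∈ Iᶜ, j' ∉ C → c i j' ≠ 0 → j' = j := by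
      intro j' hj'I hj'C hne
      have hc1 := hN' i hi
      rw [Finset.card_le_one] at hc1
      exact hc1 j' (Finset.mem_sdiff.2 ⟨Finset.mem_filter.2 ⟨hj'I, hne⟩, hj'C⟩) j
        (Finset.mem_sdiff.2 ⟨Finset.mem_filter.2 ⟨hjI, hcij⟩, hjC⟩)
    refine ⟨i, hi, by rw [sys_N, Finset.mem_filter]; exact ⟨hjI, hcij⟩, ?_, ?_⟩
    · intro _ hdeg
      obtain ⟨μ, hμ, he⟩ := hdeg
      have he' : -(0 : ℚ) = μ * (l : ℚ) := he
      have hl0 : (l : ℚ) ≠ 0 := by
        have : 0 < l := hl
        positivity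
      have hμ0 : μ = 0 := by
        have : μ * (l : ℚ) = 0 := by rw [← he']; simp
        rcases mul_eq_zero.1 this with h | h
        · exact h
        · exact absurd h hl0
      have hsub : Iᶜ.filter (fun j' => c i j' ≠ 0) ⊆ {j} := by
        intro j' hj''
        rw [Finset.mem_filter] at hj''
        rw [Finset.mem_singleton]
        refine huniq j' hj''.1 ?_ hj''.2
        intro hC
        have h := hμ j' hC
        have h' : - c i j' = μ * v j' := h
        rw [hμ0, zero_mul, neg_eq_zero] at h'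
        exact hj''.2 h'
      have := Finset.card_le_card hsub
      rw [Finset.card_singleton] at this
      omega
    · intro hcm hdeg
      obtain ⟨μ, hμ, he⟩ := hdeg
      have he' : 1 - (0 : ℚ) = μ * (l : ℚ) := he
      have hcm' : - c i j = -1 := hcm
      obtain ⟨b, hb, hib, hjb⟩ := half_pair hHalf i j
      have h2' := hLAD.h2 b hb i hi
      have h3' := hLAD.h3 b hb
      rw [← Finset.sum_neg_distrib] at h2'
      have hterm : ∀ j' ∈ b ∩ Iᶜ, - c i j' = μ * v j' + (if j' = j then -1 else 0) := by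
        intro j' hj''
        have hj'I : j' ∈ Iᶜ := (Finset.mem_inter.1 hj'').2
        by_cases hjj : j' = j
        · subst hjj
          rw [hvj, if_pos rfl, hcm']
          ring
        · rw [if_neg hjj, add_zero]
          by_cases hj'C : j' ∈ C
          · exact hμ j' hj'C
          · have hc0 : c i j' = 0 := by
              by_contra hne
              exact hjj (huniq j' hj'I hj'C hne)
            rw [hc0, hv0 j' (Finset.mem_sdiff.2 ⟨hj'I, hj'C⟩)]
            ring
      rw [Finset.sum_congr rfl hterm, Finset.sum_add_distrib, ← Finset.mul_sum, h3',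
        Finset.sum_ite_eq' (b ∩ Iᶜ) j, if_pos (Finset.mem_inter.2 ⟨hjb, hjI⟩), ind_mem hib,
        ← he'] at h2'
      norm_num at h2'
  have hfin := hFIN ι ι (sys l I v c) C _ hInv hN hthird (B.image (fun b => b ∩ Iᶜ)) ?_
  · rw [sys_T] at hfin
    rw [Finset.card_image_of_injOn] at hfin
    · exact hfin
    · intro b hb b' hb' hbb
      have hbb' : b ∩ Iᶜ = b' ∩ Iᶜ := hbb
      ext x
      by_cases hx : x ∈ I
      · have e1 := hLAD.h2 b hb x hx
        have e2 := hLAD.h2 b' hb' x hx
        rw [hbb', ← e2] at e1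
        constructor
        · intro h
          rw [ind_mem h] at e1
          by_contra h'
          rw [ind_not_mem h'] at e1
          norm_num at e1
        · intro h
          rw [ind_mem h] at e1
          by_contra h'
          rw [ind_not_mem h'] at e1
          norm_num at e1
      · have hx' : x ∈ Iᶜ := by simpa using hx
        constructor
        · intro h
          have : x ∈ b ∩ Iᶜ := Finset.mem_inter.2 ⟨h, hx'⟩
          rw [hbb'] at this
          exact (Finset.mem_inter.1 this).1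
        · intro h
          have : x ∈ b' ∩ Iᶜ := Finset.mem_inter.2 ⟨h, hx'⟩
          rw [← hbb'] at this
          exact (Finset.mem_inter.1 this).1
  · intro x hx
    obtain ⟨b, hb, rfl⟩ := Finset.mem_image.1 hx
    refine ⟨Finset.inter_subset_right, hLAD.h3 b hb, ?_⟩
    intro k hk _
    have hf : (sys l I v c).f k (b ∩ Iᶜ) = ind b k := by
      rw [hLAD.h2 b hb k hk, ← Finset.sum_neg_distrib]
      show (0 : ℚ) + ∑ i ∈ b ∩ Iᶜ, - c k i = _
      rw [zero_add]
    rw [hf]
    exact ind_or b k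

end Pool.Agent.W428.AHC.YB
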